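import Mathlib
import Pool.Agent.H23.KD.C20e.B0
import Pool.Agent.H23.KD.C20e.B1
import Pool.Agent.H23.KD.C20e.B2
import Pool.Agent.H23.KD.C20e.B3
import Pool.Agent.H23.KD.C20e.B4
import Pool.Agent.H23.KD.C20e.B5
import Pool.Agent.H23.KD.C20e.B6
import Pool.Agent.H23.KD.C20e.B7
import Pool.Agent.H23.KD.C20e.B8
import Pool.Agent.H23.KD.Snd2

set_option autoImplicit false
set_option maxRecDepth 100000
set_option linter.all false

namespace Pool.Agent.H23.KD.C20e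

open Pool.Agent.H23.KD

variable {w : ℕ → Bool}

theorem O0 (hw : Val w ET IT) : Ok w CT 608 Z0 :=
  Ok.block2 hw B0 L0 (Ok.zero w CT)
theorem O1 (hw : Val w ET IT) : Ok w CT 966 Z1 :=
  Ok.block2 hw B1 L1 (O0 hw)
theorem O2 (hw : Val w ET IT) : Ok w CT 1279 Z2 :=
  Ok.block2 hw B2 L2 (O1 hw)
theorem O3 (hw : Val w ET IT) : Ok w CT 1671 Z3 :=
  Ok.block2 hw B3 L3 (O2 hw)
theorem O4 (hw : Val w ET IT) : Ok w CT 2055 Z4 :=
  Ok.block2 hw B4 L4 (O3 hw)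
theorem O5 (hw : Val w ET IT) : Ok w CT 2254 Z5 :=
  Ok.block2 hw B5 L5 (O4 hw)
theorem O6 (hw : Val w ET IT) : Ok w CT 2537 Z6 :=
  Ok.block2 hw B6 L6 (O5 hw)
theorem O7 (hw : Val w ET IT) : Ok w CT 2693 Z7 :=
  Ok.block2 hw B7 L7 (O6 hw)
theorem O8 (hw : Val w ET IT) : Ok w CT 2842 Z8 :=
  Ok.block2 hw B8 L8 (O7 hw)
theorem O9 (hw : Val w ET IT) : Ok w CT 2989 Z9 :=
  Ok.block2 hw B9 L9 (O8 hw)
theorem O10 (hw : Val w ET IT) : Ok w CT 4707 Z10 :=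
  Ok.block2 hw B10 L10 (O9 hw)
theorem O11 (hw : Val w ET IT) : Ok w CT 5433 Z11 :=
  Ok.block2 hw B11 L11 (O10 hw)
theorem O12 (hw : Val w ET IT) : Ok w CT 6318 Z12 :=
  Ok.block2 hw B12 L12 (O11 hw)
theorem O13 (hw : Val w ET IT) : Ok w CT 6964 Z13 :=
  Ok.block2 hw B13 L13 (O12 hw)
theorem O14 (hw : Val w ET IT) : Ok w CT 7656 Z14 :=
  Ok.block2 hw B14 L14 (O13 hw)
theorem O15 (hw : Val w ET IT) : Ok w CT 8307 Z15 :=
  Ok.block2 hw B15 L15 (O14 hw)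
theorem O16 (hw : Val w ET IT) : Ok w CT 8738 Z16 :=
  Ok.block2 hw B16 L16 (O15 hw)
theorem O17 (hw : Val w ET IT) : Ok w CT 9337 Z17 :=
  Ok.block2 hw B17 L17 (O16 hw)
theorem O18 (hw : Val w ET IT) : Ok w CT 9907 Z18 :=
  Ok.block2 hw B18 L18 (O17 hw)
theorem O19 (hw : Val w ET IT) : Ok w CT 10244 Z19 :=
  Ok.block2 hw B19 L19 (O18 hw)
theorem O20 (hw : Val w ET IT) : Ok w CT 10586 Z20 :=
  Ok.block2 hw B20 L20 (O19 hw)
theorem O21 (hw : Val w ET IT) : Ok w CT 11252 Z21 :=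
  Ok.block2 hw B21 L21 (O20 hw)
theorem O22 (hw : Val w ET IT) : Ok w CT 11683 Z22 :=
  Ok.block2 hw B22 L22 (O21 hw)
theorem O23 (hw : Val w ET IT) : Ok w CT 12143 Z23 :=
  Ok.block2 hw B23 L23 (O22 hw)
theorem O24 (hw : Val w ET IT) : Ok w CT 12552 Z24 :=
  Ok.block2 hw B24 L24 (O23 hw)
theorem O25 (hw : Val w ET IT) : Ok w CT 12893 Z25 :=
  Ok.block2 hw B25 L25 (O24 hw)
theorem O26 (hw : Val w ET IT) : Ok w CT 13518 Z26 :=
  Ok.block2 hw B26 L26 (O25 hw)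
theorem O27 (hw : Val w ET IT) : Ok w CT 14230 Z27 :=
  Ok.block2 hw B27 L27 (O26 hw)
theorem O28 (hw : Val w ET IT) : Ok w CT 14858 Z28 :=
  Ok.block2 hw B28 L28 (O27 hw)
theorem O29 (hw : Val w ET IT) : Ok w CT 15321 Z29 :=
  Ok.block2 hw B29 L29 (O28 hw)
theorem O30 (hw : Val w ET IT) : Ok w CT 15693 Z30 :=
  Ok.block2 hw B30 L30 (O29 hw)
theorem O31 (hw : Val w ET IT) : Ok w CT 16041 Z31 :=
  Ok.block2 hw B31 L31 (O30 hw)
theorem O32 (hw : Val w ET IT) : Ok w CT 16516 Z32 :=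
  Ok.block2 hw B32 L32 (O31 hw)
theorem O33 (hw : Val w ET IT) : Ok w CT 17029 Z33 :=
  Ok.block2 hw B33 L33 (O32 hw)
theorem O34 (hw : Val w ET IT) : Ok w CT 17390 Z34 :=
  Ok.block2 hw B34 L34 (O33 hw)
theorem O35 (hw : Val w ET IT) : Ok w CT 17944 Z35 :=
  Ok.block2 hw B35 L35 (O34 hw)
theorem O36 (hw : Val w ET IT) : Ok w CT 18462 Z36 :=
  Ok.block2 hw B36 L36 (O35 hw)
theorem O37 (hw : Val w ET IT) : Ok w CT 19067 Z37 :=
  Ok.block2 hw B37 L37 (O36 hw)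
theorem O38 (hw : Val w ET IT) : Ok w CT 19596 Z38 :=
  Ok.block2 hw B38 L38 (O37 hw)
theorem O39 (hw : Val w ET IT) : Ok w CT 20072 Z39 :=
  Ok.block2 hw B39 L39 (O38 hw)
theorem O40 (hw : Val w ET IT) : Ok w CT 20663 Z40 :=
  Ok.block2 hw B40 L40 (O39 hw)
theorem O41 (hw : Val w ET IT) : Ok w CT 21267 Z41 :=
  Ok.block2 hw B41 L41 (O40 hw)
theorem O42 (hw : Val w ET IT) : Ok w CT 21639 Z42 :=
  Ok.block2 hw B42 L42 (O41 hw)
theorem O43 (hw : Val w ET IT) : Ok w CT 22011 Z43 :=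
  Ok.block2 hw B43 L43 (O42 hw)
theorem O44 (hw : Val w ET IT) : Ok w CT 22464 Z44 :=
  Ok.block2 hw B44 L44 (O43 hw)
theorem O45 (hw : Val w ET IT) : Ok w CT 22964 Z45 :=
  Ok.block2 hw B45 L45 (O44 hw)
theorem O46 (hw : Val w ET IT) : Ok w CT 23505 Z46 :=
  Ok.block2 hw B46 L46 (O45 hw)
theorem O47 (hw : Val w ET IT) : Ok w CT 23863 Z47 :=
  Ok.block2 hw B47 L47 (O46 hw)
theorem O48 (hw : Val w ET IT) : Ok w CT 24275 Z48 :=
  Ok.block2 hw B48 L48 (O47 hw)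
theorem O49 (hw : Val w ET IT) : Ok w CT 24718 Z49 :=
  Ok.block2 hw B49 L49 (O48 hw)
theorem O50 (hw : Val w ET IT) : Ok w CT 25172 Z50 :=
  Ok.block2 hw B50 L50 (O49 hw)
theorem O51 (hw : Val w ET IT) : Ok w CT 25568 Z51 :=
  Ok.block2 hw B51 L51 (O50 hw)
theorem O52 (hw : Val w ET IT) : Ok w CT 25999 Z52 :=
  Ok.block2 hw B52 L52 (O51 hw)
theorem O53 (hw : Val w ET IT) : Ok w CT 26535 Z53 :=
  Ok.block2 hw B53 L53 (O52 hw)
theorem O54 (hw : Val w ET IT) : Ok w CT 26995 Z54 :=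
  Ok.block2 hw B54 L54 (O53 hw)
theorem O55 (hw : Val w ET IT) : Ok w CT 27493 Z55 :=
  Ok.block2 hw B55 L55 (O54 hw)
theorem O56 (hw : Val w ET IT) : Ok w CT 27981 Z56 :=
  Ok.block2 hw B56 L56 (O55 hw)
theorem O57 (hw : Val w ET IT) : Ok w CT 28423 Z57 :=
  Ok.block2 hw B57 L57 (O56 hw)
theorem O58 (hw : Val w ET IT) : Ok w CT 28897 Z58 :=
  Ok.block2 hw B58 L58 (O57 hw)
theorem O59 (hw : Val w ET IT) : Ok w CT 29385 Z59 :=
  Ok.block2 hw B59 L59 (O58 hw)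
theorem O60 (hw : Val w ET IT) : Ok w CT 29781 Z60 :=
  Ok.block2 hw B60 L60 (O59 hw)
theorem O61 (hw : Val w ET IT) : Ok w CT 30188 Z61 :=
  Ok.block2 hw B61 L61 (O60 hw)
theorem O62 (hw : Val w ET IT) : Ok w CT 30647 Z62 :=
  Ok.block2 hw B62 L62 (O61 hw)
theorem O63 (hw : Val w ET IT) : Ok w CT 31091 Z63 :=
  Ok.block2 hw B63 L63 (O62 hw)
theorem O64 (hw : Val w ET IT) : Ok w CT 31436 Z64 :=
  Ok.block2 hw B64 L64 (O63 hw)
theorem O65 (hw : Val w ET IT) : Ok w CT 31897 Z65 :=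
  Ok.block2 hw B65 L65 (O64 hw)
theorem O66 (hw : Val w ET IT) : Ok w CT 32353 Z66 :=
  Ok.block2 hw B66 L66 (O65 hw)
theorem O67 (hw : Val w ET IT) : Ok w CT 32728 Z67 :=
  Ok.block2 hw B67 L67 (O66 hw)
theorem O68 (hw : Val w ET IT) : Ok w CT 33129 Z68 :=
  Ok.block2 hw B68 L68 (O67 hw)
theorem O69 (hw : Val w ET IT) : Ok w CT 33484 Z69 :=
  Ok.block2 hw B69 L69 (O68 hw)
theorem O70 (hw : Val w ET IT) : Ok w CT 33837 Z70 :=
  Ok.block2 hw B70 L70 (O69 hw)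
theorem O71 (hw : Val w ET IT) : Ok w CT 34222 Z71 :=
  Ok.block2 hw B71 L71 (O70 hw)
theorem O72 (hw : Val w ET IT) : Ok w CT 34552 Z72 :=
  Ok.block2 hw B72 L72 (O71 hw)
theorem O73 (hw : Val w ET IT) : Ok w CT 34908 Z73 :=
  Ok.block2 hw B73 L73 (O72 hw)
theorem O74 (hw : Val w ET IT) : Ok w CT 35192 Z74 :=
  Ok.block2 hw B74 L74 (O73 hw)
theorem O75 (hw : Val w ET IT) : Ok w CT 35631 Z75 :=
  Ok.block2 hw B75 L75 (O74 hw)
theorem O76 (hw : Val w ET IT) : Ok w CT 35944 Z76 :=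
  Ok.block2 hw B76 L76 (O75 hw)
theorem O77 (hw : Val w ET IT) : Ok w CT 36256 Z77 :=
  Ok.block2 hw B77 L77 (O76 hw)
theorem O78 (hw : Val w ET IT) : Ok w CT 36658 Z78 :=
  Ok.block2 hw B78 L78 (O77 hw)
theorem O79 (hw : Val w ET IT) : Ok w CT 36928 Z79 :=
  Ok.block2 hw B79 L79 (O78 hw)
theorem O80 (hw : Val w ET IT) : Ok w CT 37155 Z80 :=
  Ok.block2 hw B80 L80 (O79 hw)
theorem O81 (hw : Val w ET IT) : Ok w CT 37468 Z81 :=
  Ok.block2 hw B81 L81 (O80 hw)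
theorem O82 (hw : Val w ET IT) : Ok w CT 37742 Z82 :=
  Ok.block2 hw B82 L82 (O81 hw)
theorem O83 (hw : Val w ET IT) : Ok w CT 37996 Z83 :=
  Ok.block2 hw B83 L83 (O82 hw)
theorem O84 (hw : Val w ET IT) : Ok w CT 38360 Z84 :=
  Ok.block2 hw B84 L84 (O83 hw)
theorem O85 (hw : Val w ET IT) : Ok w CT 38651 Z85 :=
  Ok.block2 hw B85 L85 (O84 hw)
theorem O86 (hw : Val w ET IT) : Ok w CT 38923 Z86 :=
  Ok.block2 hw B86 L86 (O85 hw)
theorem O87 (hw : Val w ET IT) : Ok w CT 39191 Z87 :=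
  Ok.block2 hw B87 L87 (O86 hw)
theorem O88 (hw : Val w ET IT) : Ok w CT 39911 Z88 :=
  Ok.block2 hw B88 L88 (O87 hw)
theorem O89 (hw : Val w ET IT) : Ok w CT 40559 Z89 :=
  Ok.block2 hw B89 L89 (O88 hw)
theorem O90 (hw : Val w ET IT) : Ok w CT 41265 Z90 :=
  Ok.block2 hw B90 L90 (O89 hw)
theorem O91 (hw : Val w ET IT) : Ok w CT 41721 Z91 :=
  Ok.block2 hw B91 L91 (O90 hw)
theorem O92 (hw : Val w ET IT) : Ok w CT 42648 Z92 :=
  Ok.block2 hw B92 L92 (O91 hw)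
theorem O93 (hw : Val w ET IT) : Ok w CT 43077 Z93 :=
  Ok.block2 hw B93 L93 (O92 hw)
theorem O94 (hw : Val w ET IT) : Ok w CT 43602 Z94 :=
  Ok.block2 hw B94 L94 (O93 hw)
theorem O95 (hw : Val w ET IT) : Ok w CT 44134 Z95 :=
  Ok.block2 hw B95 L95 (O94 hw)
theorem O96 (hw : Val w ET IT) : Ok w CT 44796 Z96 :=
  Ok.block2 hw B96 L96 (O95 hw)
theorem O97 (hw : Val w ET IT) : Ok w CT 45505 Z97 :=
  Ok.block2 hw B97 L97 (O96 hw)
theorem O98 (hw : Val w ET IT) : Ok w CT 45963 Z98 :=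
  Ok.block2 hw B98 L98 (O97 hw)
theorem O99 (hw : Val w ET IT) : Ok w CT 46145 Z99 :=
  Ok.block2 hw B99 L99 (O98 hw)
theorem O100 (hw : Val w ET IT) : Ok w CT 46402 Z100 :=
  Ok.block2 hw B100 L100 (O99 hw)
theorem O101 (hw : Val w ET IT) : Ok w CT 46676 Z101 :=
  Ok.block2 hw B101 L101 (O100 hw)
theorem O102 (hw : Val w ET IT) : Ok w CT 47071 Z102 :=
  Ok.block2 hw B102 L102 (O101 hw)
theorem O103 (hw : Val w ET IT) : Ok w CT 47625 Z103 :=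
  Ok.block2 hw B103 L103 (O102 hw)
theorem O104 (hw : Val w ET IT) : Ok w CT 48015 Z104 :=
  Ok.block2 hw B104 L104 (O103 hw)
theorem O105 (hw : Val w ET IT) : Ok w CT 48448 Z105 :=
  Ok.block2 hw B105 L105 (O104 hw)
theorem O106 (hw : Val w ET IT) : Ok w CT 48984 Z106 :=
  Ok.block2 hw B106 L106 (O105 hw)
theorem O107 (hw : Val w ET IT) : Ok w CT 49486 Z107 :=
  Ok.block2 hw B107 L107 (O106 hw)
theorem O108 (hw : Val w ET IT) : Ok w CT 50169 Z108 :=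
  Ok.block2 hw B108 L108 (O107 hw)
theorem O109 (hw : Val w ET IT) : Ok w CT 50774 Z109 :=
  Ok.block2 hw B109 L109 (O108 hw)
theorem O110 (hw : Val w ET IT) : Ok w CT 51159 Z110 :=
  Ok.block2 hw B110 L110 (O109 hw)
theorem O111 (hw : Val w ET IT) : Ok w CT 51444 Z111 :=
  Ok.block2 hw B111 L111 (O110 hw)
theorem O112 (hw : Val w ET IT) : Ok w CT 52024 Z112 :=
  Ok.block2 hw B112 L112 (O111 hw)
theorem O113 (hw : Val w ET IT) : Ok w CT 52376 Z113 :=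
  Ok.block2 hw B113 L113 (O112 hw)
theorem O114 (hw : Val w ET IT) : Ok w CT 52670 Z114 :=
  Ok.block2 hw B114 L114 (O113 hw)
theorem O115 (hw : Val w ET IT) : Ok w CT 53019 Z115 :=
  Ok.block2 hw B115 L115 (O114 hw)
theorem O116 (hw : Val w ET IT) : Ok w CT 53412 Z116 :=
  Ok.block2 hw B116 L116 (O115 hw)
theorem O117 (hw : Val w ET IT) : Ok w CT 53841 Z117 :=
  Ok.block2 hw B117 L117 (O116 hw)
theorem O118 (hw : Val w ET IT) : Ok w CT 54478 Z118 :=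
  Ok.block2 hw B118 L118 (O117 hw)
theorem O119 (hw : Val w ET IT) : Ok w CT 54952 Z119 :=
  Ok.block2 hw B119 L119 (O118 hw)
theorem O120 (hw : Val w ET IT) : Ok w CT 55403 Z120 :=
  Ok.block2 hw B120 L120 (O119 hw)
theorem O121 (hw : Val w ET IT) : Ok w CT 56004 Z121 :=
  Ok.block2 hw B121 L121 (O120 hw)
theorem O122 (hw : Val w ET IT) : Ok w CT 56462 Z122 :=
  Ok.block2 hw B122 L122 (O121 hw)
theorem O123 (hw : Val w ET IT) : Ok w CT 56890 Z123 :=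
  Ok.block2 hw B123 L123 (O122 hw)
theorem O124 (hw : Val w ET IT) : Ok w CT 57114 Z124 :=
  Ok.block2 hw B124 L124 (O123 hw)
theorem O125 (hw : Val w ET IT) : Ok w CT 57345 Z125 :=
  Ok.block2 hw B125 L125 (O124 hw)
theorem O126 (hw : Val w ET IT) : Ok w CT 57575 Z126 :=
  Ok.block2 hw B126 L126 (O125 hw)
theorem O127 (hw : Val w ET IT) : Ok w CT 57824 Z127 :=
  Ok.block2 hw B127 L127 (O126 hw)
theorem O128 (hw : Val w ET IT) : Ok w CT 57970 Z128 :=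
  Ok.block2 hw B128 L128 (O127 hw)
theorem O129 (hw : Val w ET IT) : Ok w CT 58209 Z129 :=
  Ok.block2 hw B129 L129 (O128 hw)
theorem O130 (hw : Val w ET IT) : Ok w CT 58500 Z130 :=
  Ok.block2 hw B130 L130 (O129 hw)
theorem O131 (hw : Val w ET IT) : Ok w CT 58873 Z131 :=
  Ok.block2 hw B131 L131 (O130 hw)
theorem O132 (hw : Val w ET IT) : Ok w CT 59253 Z132 :=
  Ok.block2 hw B132 L132 (O131 hw)
theorem O133 (hw : Val w ET IT) : Ok w CT 59570 Z133 :=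
  Ok.block2 hw B133 L133 (O132 hw)
theorem O134 (hw : Val w ET IT) : Ok w CT 59970 Z134 :=
  Ok.block2 hw B134 L134 (O133 hw)
theorem O135 (hw : Val w ET IT) : Ok w CT 60229 Z135 :=
  Ok.block2 hw B135 L135 (O134 hw)
theorem O136 (hw : Val w ET IT) : Ok w CT 60476 Z136 :=
  Ok.block2 hw B136 L136 (O135 hw)
theorem O137 (hw : Val w ET IT) : Ok w CT 60729 Z137 :=
  Ok.block2 hw B137 L137 (O136 hw)
theorem O138 (hw : Val w ET IT) : Ok w CT 60939 Z138 :=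
  Ok.block2 hw B138 L138 (O137 hw)
theorem O139 (hw : Val w ET IT) : Ok w CT 61086 Z139 :=
  Ok.block2 hw B139 L139 (O138 hw)
theorem O140 (hw : Val w ET IT) : Ok w CT 61383 Z140 :=
  Ok.block2 hw B140 L140 (O139 hw)
theorem O141 (hw : Val w ET IT) : Ok w CT 61672 Z141 :=
  Ok.block2 hw B141 L141 (O140 hw)
theorem O142 (hw : Val w ET IT) : Ok w CT 61933 Z142 :=
  Ok.block2 hw B142 L142 (O141 hw)
theorem O143 (hw : Val w ET IT) : Ok w CT 62257 Z143 :=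
  Ok.block2 hw B143 L143 (O142 hw)
theorem O144 (hw : Val w ET IT) : Ok w CT 62423 Z144 :=
  Ok.block2 hw B144 L144 (O143 hw)
theorem O145 (hw : Val w ET IT) : Ok w CT 62573 Z145 :=
  Ok.block2 hw B145 L145 (O144 hw)
theorem O146 (hw : Val w ET IT) : Ok w CT 62946 Z146 :=
  Ok.block2 hw B146 L146 (O145 hw)
theorem O147 (hw : Val w ET IT) : Ok w CT 63219 Z147 :=
  Ok.block2 hw B147 L147 (O146 hw)
theorem O148 (hw : Val w ET IT) : Ok w CT 63400 Z148 :=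
  Ok.block2 hw B148 L148 (O147 hw)
theorem O149 (hw : Val w ET IT) : Ok w CT 63583 Z149 :=
  Ok.block2 hw B149 L149 (O148 hw)
theorem O150 (hw : Val w ET IT) : Ok w CT 63817 Z150 :=
  Ok.block2 hw B150 L150 (O149 hw)
theorem O151 (hw : Val w ET IT) : Ok w CT 63998 Z151 :=
  Ok.block2 hw B151 L151 (O150 hw)
theorem O152 (hw : Val w ET IT) : Ok w CT 64226 Z152 :=
  Ok.block2 hw B152 L152 (O151 hw)
theorem O153 (hw : Val w ET IT) : Ok w CT 64458 Z153 :=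
  Ok.block2 hw B153 L153 (O152 hw)
theorem O154 (hw : Val w ET IT) : Ok w CT 64662 Z154 :=
  Ok.block2 hw B154 L154 (O153 hw)
theorem O155 (hw : Val w ET IT) : Ok w CT 64825 Z155 :=
  Ok.block2 hw B155 L155 (O154 hw)
theorem O156 (hw : Val w ET IT) : Ok w CT 65629 Z156 :=
  Ok.block2 hw B156 L156 (O155 hw)
theorem O157 (hw : Val w ET IT) : Ok w CT 65783 Z157 :=
  Ok.block2 hw B157 L157 (O156 hw)
theorem O158 (hw : Val w ET IT) : Ok w CT 66066 Z158 :=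
  Ok.block2 hw B158 L158 (O157 hw)
theorem O159 (hw : Val w ET IT) : Ok w CT 66296 Z159 :=
  Ok.block2 hw B159 L159 (O158 hw)

theorem last_empty : Nat.land (get8 CT 66295) 4095 = 0 := by decide +kernel

/-- there is no valuation -/
theorem no_val (hw : Val w ET IT) : False :=
  Ok.false (O159 hw) (by norm_num : 66295 < 66296) last_empty

end Pool.Agent.H23.KD.C20e
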